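import Pool.Agent.Lib.MP_d87150_al.Fb.Tree
import Pool.Agent.Lib.MP_d87150_al.Fb.Univ

/-!
# Finitely generated groups acting freely without inversions on `Λ`-trees are finitely presented
-/

set_option autoImplicit false

open Pool.Agent.Lib.MP_d87150_al.Fb

universe u v w

theorem Pool.Agent.Results.MP_d87150_al.TreeAction.result
    (Λ : Type u) [AddCommGroup Λ] [LinearOrder Λ] [IsOrderedAddMonoid Λ]
    (X : Type v) [Nonempty X] (d : X → X → Λ) (hT : IsLTree d)
    (G : Type w) [Group G] [Group.FG G] [MulAction G X] (hF : IsFreeIsometric G d) :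
    Group.IsFinitelyPresented G := by
  obtain ⟨ℓ, h1, h2, h3, h4, h5⟩ := exists_length hT hF
  exact final_univ Λ G ℓ h1 h2 h3 h4 h5
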